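import Mathlib

set_option autoImplicit false
set_option linter.unusedSectionVars false
set_option linter.unusedVariables false

/-!
Redundant symmetric rigidity of `ℤ₂`-symmetric simplicial circuits fails for every `k ≥ 3`: the join
of a hexagon with the boundary of a cross-polytope is a counterexample.
-/

namespace Pool.Agent.Results.MP_4fec65_co.HexagonJoin

open scoped InnerProductSpace
open Finset

section defs

variable {V : Type} [DecidableEq V]

/-- the boundary of a simplicial `k`-complex `S` (given by its facets): the set of `k`-element sets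
which lie in an odd number of facets -/
def boundary (k : ℕ) (S : Finset (Finset V)) : Set (Finset V) :=
  {R | R.card = k ∧ Odd (S.filter fun F => R ⊆ F).card}

/-- `S` is a simplicial `k`-circuit: its facets have `k + 1` elements, it is nonempty, its boundary
is empty and no nonempty proper subset has an empty boundary -/
def IsCircuit (k : ℕ) (S : Finset (Finset V)) : Prop :=
  (∀ F ∈ S, F.card = k + 1) ∧ S.Nonempty ∧ boundary k S = ∅ ∧
    ∀ T, T ⊂ S → T.Nonempty → boundary k T ≠ ∅

/-- `(S, star)` is a `ℤ₂`-symmetric simplicial `k`-circuit with vertex set `V`: `S` is a simplicial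
`k`-circuit, `V` is the union of its facets, and `star` is a free simplicial involution -/
def IsSymmetricCircuit (k : ℕ) (S : Finset (Finset V)) (star : V → V) : Prop :=
  IsCircuit k S ∧ (∀ v, ∃ F ∈ S, v ∈ F) ∧ (∀ v, star (star v) = v) ∧
    (∀ F ∈ S, F.image star ∈ S) ∧ ∀ v, ∀ F ∈ S, ¬ (v ∈ F ∧ star v ∈ F)

/-- the graph `G(S)` -/
def graph (S : Finset (Finset V)) : SimpleGraph V where
  Adj u v := u ≠ v ∧ ∃ F ∈ S, u ∈ F ∧ v ∈ F
  symm := ⟨fun _ _ ⟨h, F, hF, hu, hv⟩ => ⟨h.symm, F, hF, hv, hu⟩⟩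
  loopless := ⟨fun _ h => h.1 rfl⟩

/-- `n`-connected: more than `n` vertices, and the deletion of fewer than `n` vertices always leaves
a connected graph -/
def IsKConnected [Fintype V] (n : ℕ) (G : SimpleGraph V) : Prop :=
  n < Fintype.card V ∧ ∀ X : Finset V, X.card < n → (G.induce {v | v ∉ X}).Connected

/-- `B_k`, the boundary complex of the `(k+1)`-dimensional cross-polytope; `(i, true)` stands for
`e_i` and `(i, false)` for `-e_i` -/
def crossPolytope (k : ℕ) : Set (Finset (Fin (k + 1) × Bool)) :=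
  {F | ∀ i, ∃! b, (i, b) ∈ F}

/-- `d`-dimensional Euclidean space -/
abbrev Eu (d : ℕ) := EuclideanSpace ℝ (Fin d)

/-- `m` is an infinitesimal motion of the framework `(H, p)` -/
def IsMotion {d : ℕ} (H : SimpleGraph V) (p m : V → Eu d) : Prop :=
  ∀ u v, H.Adj u v → ⟪p u - p v, m u - m v⟫_ℝ = 0

/-- the motion `m` is trivial: `m v = A (p v) + t` with a skew-symmetric `A` -/
def IsTrivial {d : ℕ} (p m : V → Eu d) : Prop :=
  ∃ (A : Eu d →ₗ[ℝ] Eu d) (t : Eu d), (∀ x y, ⟪A x, y⟫_ℝ = -⟪x, A y⟫_ℝ) ∧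
    ∀ v, m v = A (p v) + t

/-- infinitesimally rigid framework -/
def InfRigid {d : ℕ} (H : SimpleGraph V) (p : V → Eu d) : Prop :=
  ∀ m, IsMotion H p m → IsTrivial p m

/-- `{1, τ}` is a point group of order two: `τ ≠ 1` is an orthogonal linear involution -/
def IsOrderTwo {d : ℕ} (τ : Eu d →ₗ[ℝ] Eu d) : Prop :=
  (∀ x y, ⟪τ x, τ y⟫_ℝ = ⟪x, y⟫_ℝ) ∧ (∀ x, τ (τ x) = x) ∧ τ ≠ LinearMap.id

/-- `(H, star)` is `Γ`-rigid for `Γ = {1, τ}`: it has an infinitesimally rigid `Γ`-symmetric
realisation -/
def GammaRigid {d : ℕ} (H : SimpleGraph V) (star : V → V) (τ : Eu d →ₗ[ℝ] Eu d) : Prop :=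
  ∃ p : V → Eu d, (∀ v, p (star v) = τ (p v)) ∧ InfRigid H p

end defs

/-- The statement of Q1, with the connectivity hypothesis '`G(S)` is `c k`-connected' -/
def Statement (c : ℕ → ℕ) : Prop :=
  ∀ k : ℕ, 3 ≤ k → ∀ (V : Type) [Fintype V] [DecidableEq V] (S : Finset (Finset V)) (star : V → V),
    IsSymmetricCircuit k S star →
    (¬ ∃ φ : V ≃ Fin (k + 1) × Bool, ∀ F : Finset V,
      F ∈ S ↔ F.map φ.toEmbedding ∈ crossPolytope k) →
    IsKConnected (c k) (graph S) →
    ∀ τ : Eu (k + 1) →ₗ[ℝ] Eu (k + 1), IsOrderTwo τ → ∀ u v, (graph S).Adj u v →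
      GammaRigid ((graph S).deleteEdges {s(u, v), s(star u, star v)}) star τ

/-! ### Rigidity -/

section rigidity

variable {V : Type} [Fintype V] [DecidableEq V] {d : ℕ} {H : SimpleGraph V} {p : V → Eu d}

/-- the points of a rigid framework with more than `d + 1` vertices do not lie in a hyperplane -/
theorem hyper (hr : InfRigid H p) (hcard : d + 1 < Fintype.card V) (n : Eu d) (hn : n ≠ 0)
    (hc : ∀ v w, ⟪n, p v - p w⟫_ℝ = 0) : False := by
  let Ψ : (Eu d × ℝ) →ₗ[ℝ] (V → ℝ) :=
    { toFun := fun bs v => ⟪bs.1, p v⟫_ℝ + bs.2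
      map_add' := by
        intro x y
        ext v
        simp only [Prod.fst_add, Prod.snd_add, inner_add_left, Pi.add_apply]
        ring
      map_smul' := by
        intro r x
        ext v
        simp only [Prod.smul_fst, Prod.smul_snd, inner_smul_left, Pi.smul_apply, smul_eq_mul,
          RingHom.id_apply]
        simp
        ring }
  have hsurj : Function.Surjective Ψ := by
    intro c
    obtain ⟨A, t, hA, hm⟩ := hr (fun v => c v • n) (by
      intro u v _
      rw [← sub_smul, inner_smul_right, real_inner_comm, hc, mul_zero])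
    have hnn : ⟪n, n⟫_ℝ ≠ 0 := by
      rw [real_inner_self_eq_norm_sq]
      exact pow_ne_zero _ (norm_ne_zero_iff.2 hn)
    refine ⟨(-(1 / ⟪n, n⟫_ℝ) • A n, (1 / ⟪n, n⟫_ℝ) * ⟪n, t⟫_ℝ), ?_⟩
    ext v
    have h1 := congrArg (fun x => ⟪n, x⟫_ℝ) (hm v)
    simp only [inner_add_right, inner_smul_right] at h1
    have h2 := hA n (p v)
    simp only [Ψ, LinearMap.coe_mk, AddHom.coe_mk, inner_smul_left]
    simp only [map_neg, conj_trivial]
    rw [h2]
    field_simp
    linarith
  have h3 := LinearMap.range_eq_top.2 hsurj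
  have h4 := LinearMap.finrank_range_le Ψ
  rw [h3, finrank_top, Module.finrank_fintype_fun_eq_card, Module.finrank_prod,
    finrank_euclideanSpace_fin, Module.finrank_self] at h4
  omega

/-- a vertex of a rigid framework and its neighbours do not lie in a hyperplane -/
theorem star_spans (hr : InfRigid H p) (hcard : d + 1 < Fintype.card V) (n : Eu d) (hn : n ≠ 0)
    (v : V) (hc : ∀ w, H.Adj v w → ⟪n, p v - p w⟫_ℝ = 0) : False := by
  obtain ⟨A, t, hA, hm⟩ := hr (fun w => if w = v then n else 0) (by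
    intro x y hxy
    by_cases hx : x = v
    · subst hx
      have hy : y ≠ x := hxy.ne'
      simp only [if_true, if_neg hy, sub_zero]
      rw [real_inner_comm]
      exact hc y hxy
    · by_cases hy : y = v
      · subst hy
        simp only [if_true, if_neg hx, zero_sub, inner_neg_right, neg_eq_zero]
        rw [real_inner_comm, ← neg_sub, inner_neg_right, hc x hxy.symm, neg_zero]
      · simp [hx, hy])
  have key : ∀ w, ⟪n, p v - p w⟫_ℝ = 0 := by
    intro w
    by_cases hw : w = v
    · subst hw; simp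
    have h1 := hm v
    have h2 := hm w
    simp only [if_true, if_neg hw] at h1 h2
    have h3 : n = A (p v - p w) := by
      rw [map_sub, h1]
      rw [eq_sub_iff_add_eq]
      have : A (p w) = -t := by
        rw [eq_neg_iff_add_eq_zero]; exact h2.symm
      rw [this, ← h1, h1]
      abel
    have h4 := hA (p v - p w) (p v - p w)
    rw [real_inner_comm (A (p v - p w))] at h4
    rw [h3]
    linarith
  refine hyper hr hcard n hn fun x y => ?_
  have h1 := key x
  have h2 := key y
  have h3 : p x - p y = (p v - p y) - (p v - p x) := by abel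
  rw [h3, inner_sub_right, h1, h2, sub_zero]

/-- Two bodies which share points whose affine span has codimension at least two -/
theorem not_rigid (C P Q : V → Prop) (hcov : ∀ v, C v ∨ P v ∨ Q v)
    (hCP : ∀ v, C v → ¬ P v) (hPQ : ∀ v, P v → ¬ Q v) (hCQ : ∀ v, C v → ¬ Q v)
    (hno : ∀ v w, P v → Q w → ¬ H.Adj v w)
    (c₀ x₀ x₁ y₀ y₁ : V) (hc₀ : C c₀) (hx₀ : P x₀) (hx₁ : P x₁) (hy₀ : Q y₀) (hy₁ : Q y₁)
    (hNx : ∀ w, H.Adj x₀ w → C w ∨ w = x₁) (hNy : ∀ w, H.Adj y₀ w → C w ∨ w = y₁)
    (hcard : d + 1 < Fintype.card V)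
    (u w : Eu d) (huw : LinearIndependent ℝ ![u, w])
    (hu : ∀ c, C c → ⟪u, p c - p c₀⟫_ℝ = 0) (hw : ∀ c, C c → ⟪w, p c - p c₀⟫_ℝ = 0) :
    ¬ InfRigid H p := by
  intro hr
  classical
  -- the rotation
  let S : Eu d → Eu d := fun z => ⟪u, z⟫_ℝ • w - ⟪w, z⟫_ℝ • u
  have hS : ∀ z z', S (z - z') = S z - S z' := by
    intro z z'
    simp only [S, inner_sub_right, sub_smul]
    abel
  have hSS : ∀ z, ⟪z, S z⟫_ℝ = 0 := by
    intro z
    simp only [S, inner_sub_right, inner_smul_right]
    rw [real_inner_comm u z, real_inner_comm w z]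
    ring
  have hSC : ∀ c, C c → ∀ z, ⟪p c - p c₀, S z⟫_ℝ = 0 := by
    intro c hc z
    simp only [S, inner_sub_right, inner_smul_right]
    rw [real_inner_comm u, real_inner_comm w, hu c hc, hw c hc]
    ring
  have hS0 : ∀ c, C c → S (p c - p c₀) = 0 := by
    intro c hc
    simp only [S, hu c hc, hw c hc, zero_smul, sub_zero]
  obtain ⟨A, t, hA, hm⟩ := hr (fun v => if P v then S (p v - p c₀) else 0) (by
    intro x y hxy
    by_cases hx : P x
    · by_cases hy : P y
      · simp only [if_pos hx, if_pos hy]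
        rw [← hS, sub_sub_sub_cancel_right]
        exact hSS _
      · simp only [if_pos hx, if_neg hy, sub_zero]
        have hyC : C y := by
          rcases hcov y with h | h | h
          · exact h
          · exact absurd h hy
          · exact absurd hxy (hno x y hx h)
        have : p x - p y = (p x - p c₀) - (p y - p c₀) := by abel
        rw [this, inner_sub_left, hSC y hyC, hSS, sub_zero]
    · by_cases hy : P y
      · simp only [if_neg hx, if_pos hy, zero_sub, inner_neg_right, neg_eq_zero]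
        have hxC : C x := by
          rcases hcov x with h | h | h
          · exact h
          · exact absurd h hx
          · exact absurd hxy.symm (hno y x hy h)
        have : p x - p y = (p x - p c₀) - (p y - p c₀) := by abel
        rw [this, inner_sub_left, hSC x hxC, hSS, sub_zero]
      · simp [hx, hy])
  have hCQ0 : ∀ v, ¬ P v → A (p v) + t = 0 := by
    intro v hv
    have := hm v
    simp only [if_neg hv] at this
    exact this.symm
  have hAc : ∀ v, ¬ P v → A (p v - p c₀) = 0 := by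
    intro v hv
    have h1 := hCQ0 v hv
    have h2 := hCQ0 c₀ (hCP c₀ hc₀)
    rw [map_sub, sub_eq_zero]
    rw [← h2] at h1
    exact add_right_cancel h1
  have hA0 : ∀ z, A z = 0 := by
    intro z
    by_contra hne
    refine star_spans hr hcard (A z) hne y₀ fun v hv => ?_
    have h0 : ∀ v, ¬ P v → ⟪A z, p v - p c₀⟫_ℝ = 0 := by
      intro v hv
      rw [hA, hAc v hv, inner_zero_right, neg_zero]
    have hv' : ¬ P v := by
      rcases hNy v hv with h | h
      · exact hCP v h
      · rw [h]; exact fun h' => hPQ _ h' hy₁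
    have hy' : ¬ P y₀ := fun h' => hPQ _ h' hy₀
    have : p y₀ - p v = (p y₀ - p c₀) - (p v - p c₀) := by abel
    rw [this, inner_sub_right, h0 _ hy', h0 _ hv', sub_zero]
  have ht : t = 0 := by
    have := hCQ0 c₀ (hCP c₀ hc₀)
    rwa [hA0, zero_add] at this
  have hP0 : ∀ v, P v → ⟪u, p v - p c₀⟫_ℝ = 0 := by
    intro v hv
    have h1 := hm v
    simp only [if_pos hv, hA0, ht, add_zero] at h1
    simp only [S] at h1
    have h2 := (LinearIndependent.pair_iff.1 huw) (-⟪w, p v - p c₀⟫_ℝ) (⟪u, p v - p c₀⟫_ℝ) (by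
      rw [← h1, neg_smul]; abel)
    exact h2.2
  have hune : u ≠ 0 := by
    have := huw.ne_zero 0
    simpa using this
  refine star_spans hr hcard u hune x₀ fun v hv => ?_
  have hv' : ⟪u, p v - p c₀⟫_ℝ = 0 := by
    rcases hNx v hv with h | h
    · exact hu v h
    · rw [h]; exact hP0 _ hx₁
  have : p x₀ - p v = (p x₀ - p c₀) - (p v - p c₀) := by abel
  rw [this, inner_sub_right, hP0 _ hx₀, hv', sub_zero]

end rigidity

/-- two independent vectors orthogonal to `m` given vectors of `ℝ^(m+2)` -/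
theorem exists_orth {m : ℕ} (g : Fin m → Eu (m + 2)) :
    ∃ u w : Eu (m + 2), LinearIndependent ℝ ![u, w] ∧
      ∀ x ∈ Submodule.span ℝ (Set.range g), ⟪u, x⟫_ℝ = 0 ∧ ⟪w, x⟫_ℝ = 0 := by
  set K := Submodule.span ℝ (Set.range g) with hK
  have h1 : Module.finrank ℝ K ≤ m := by
    have := finrank_range_le_card (R := ℝ) g
    simpa [Set.finrank] using this
  have h2 := Submodule.finrank_add_finrank_orthogonal K
  rw [finrank_euclideanSpace_fin] at h2
  have h3 : 2 ≤ Module.finrank ℝ Kᗮ := by omega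
  obtain ⟨f, hf⟩ := (Module.finBasis ℝ Kᗮ).linearIndependent.comp (Fin.castLE h3)
    (Fin.castLE_injective h3) |> fun h => (⟨_, h⟩ : ∃ f : Fin 2 → Kᗮ, LinearIndependent ℝ f)
  have hf' : LinearIndependent ℝ (fun i => (f i : Eu (m + 2))) :=
    hf.map' Kᗮ.subtype (Submodule.ker_subtype _)
  refine ⟨f 0, f 1, ?_, ?_⟩
  · convert hf' using 1
    ext i
    fin_cases i <;> rfl
  · intro x hx
    have h0 := (f 0).2
    have h1 := (f 1).2
    rw [Submodule.mem_orthogonal] at h0 h1
    exact ⟨by rw [real_inner_comm]; exact h0 x hx, by rw [real_inner_comm]; exact h1 x hx⟩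

/-! ### The complexes -/

section complex

/-- the vertices of the join of the hexagon (`inr x`) and the boundary of the `m`-dimensional
cross-polytope (`inl (i, b)`) -/
abbrev Vx (m : ℕ) := (Fin m × Bool) ⊕ ZMod 6

/-- the antipodal map -/
def star {m : ℕ} : Vx m → Vx m
  | .inl a => .inl (a.1, !a.2)
  | .inr x => .inr (x + 3)

/-- the facets -/
def facet {m : ℕ} (f : Fin m → Bool) (x : ZMod 6) : Finset (Vx m) :=
  (univ.image fun i => (i, f i)).disjSum {x, x + 1}

/-- the complex -/
def cx (m : ℕ) : Finset (Finset (Vx m)) :=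
  (univ : Finset ((Fin m → Bool) × ZMod 6)).image fun q => facet q.1 q.2

variable {m : ℕ}

theorem inl_mem (f : Fin m → Bool) (x : ZMod 6) (a : Fin m × Bool) :
    Sum.inl a ∈ facet f x ↔ f a.1 = a.2 := by
  unfold facet
  rw [inl_mem_disjSum, mem_image]
  constructor
  · rintro ⟨i, -, rfl⟩
    rfl
  · intro h
    exact ⟨a.1, mem_univ _, by rw [h]⟩

theorem inr_mem (f : Fin m → Bool) (x y : ZMod 6) :
    (Sum.inr y : Vx m) ∈ facet f x ↔ y = x ∨ y = x + 1 := by
  unfold facet
  rw [inr_mem_disjSum, mem_insert, mem_singleton]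

theorem card_facet (f : Fin m → Bool) (x : ZMod 6) : (facet f x).card = m + 2 := by
  unfold facet
  rw [card_disjSum, card_image_of_injective, card_univ, Fintype.card_fin, card_pair]
  · revert x
    decide
  · intro i j h
    exact congrArg Prod.fst h

theorem mem_cx (F : Finset (Vx m)) : F ∈ cx m ↔ ∃ f x, F = facet f x := by
  unfold cx
  rw [mem_image]
  constructor
  · rintro ⟨q, -, rfl⟩
    exact ⟨q.1, q.2, rfl⟩
  · rintro ⟨f, x, rfl⟩
    exact ⟨(f, x), mem_univ _, rfl⟩

theorem facet_mem (f : Fin m → Bool) (x : ZMod 6) : facet f x ∈ cx m := (mem_cx _).2 ⟨f, x, rfl⟩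

theorem subset_iff (R : Finset (Vx m)) (h : Fin m → Bool) (z : ZMod 6) :
    R ⊆ facet h z ↔ (∀ a, Sum.inl a ∈ R → h a.1 = a.2) ∧ ∀ y, (Sum.inr y : Vx m) ∈ R →
      (y = z ∨ y = z + 1) := by
  constructor
  · intro hs
    exact ⟨fun a ha => (inl_mem h z a).1 (hs ha), fun y hy => (inr_mem h z y).1 (hs hy)⟩
  · rintro ⟨h1, h2⟩ v hv
    rcases v with a | y
    · exact (inl_mem h z a).2 (h1 a hv)
    · exact (inr_mem h z y).2 (h2 y hv)

theorem ridge1 (f h : Fin m → Bool) (x z : ZMod 6) (i : Fin m) :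
    (facet f x).erase (Sum.inl (i, f i)) ⊆ facet h z ↔
      facet h z = facet f x ∨ facet h z = facet (Function.update f i (!f i)) x := by
  have hx : ∀ x z : ZMod 6, (x = z ∨ x = z + 1) → (x + 1 = z ∨ x + 1 = z + 1) → z = x := by
    decide
  constructor
  · intro hs
    rw [subset_iff] at hs
    obtain ⟨h1, h2⟩ := hs
    have hz : z = x := hx x z
      (h2 x (mem_erase.2 ⟨by simp, (inr_mem _ _ _).2 (Or.inl rfl)⟩))
      (h2 (x + 1) (mem_erase.2 ⟨by simp, (inr_mem _ _ _).2 (Or.inr rfl)⟩))
    have hj : ∀ j, j ≠ i → h j = f j := by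
      intro j hj
      exact h1 (j, f j) (mem_erase.2 ⟨by
        intro h'
        exact hj (congrArg Prod.fst (Sum.inl_injective h')), (inl_mem _ _ _).2 rfl⟩)
    subst hz
    by_cases hi : h i = f i
    · left
      congr 1
      funext j
      by_cases hji : j = i
      · rw [hji, hi]
      · exact hj j hji
    · right
      congr 1
      funext j
      by_cases hji : j = i
      · subst hji
        rw [Function.update_self]
        revert hi
        cases h j <;> cases f j <;> simp
      · rw [Function.update_of_ne hji]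
        exact hj j hji
  · rintro (h | h)
    · rw [h]; exact erase_subset _ _
    · rw [h, subset_iff]
      refine ⟨fun a ha => ?_, fun y hy => ?_⟩
      · rw [mem_erase, inl_mem] at ha
        obtain ⟨h1, h2⟩ := ha
        have : a.1 ≠ i := by
          rintro rfl
          apply h1
          rw [h2]
        rw [Function.update_of_ne this]
        exact h2
      · rw [mem_erase, inr_mem] at hy
        exact hy.2

theorem facet_inj {f h : Fin m → Bool} {x z : ZMod 6} (he : facet h z = facet f x) :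
    h = f ∧ z = x := by
  have hx : ∀ x z : ZMod 6, (x = z ∨ x = z + 1) → (x + 1 = z ∨ x + 1 = z + 1) → z = x := by
    decide
  have h1 := (subset_iff (facet f x) h z).1 he.ge
  refine ⟨?_, hx x z (h1.2 x ((inr_mem _ _ _).2 (Or.inl rfl)))
    (h1.2 (x + 1) ((inr_mem _ _ _).2 (Or.inr rfl)))⟩
  funext i
  exact h1.1 (i, f i) ((inl_mem _ _ _).2 rfl)

theorem ridge2 (f h : Fin m → Bool) (x z : ZMod 6) :
    (facet f x).erase (Sum.inr x) ⊆ facet h z ↔
      facet h z = facet f x ∨ facet h z = facet f (x + 1) := by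
  have hx : ∀ x z : ZMod 6, (x + 1 = z ∨ x + 1 = z + 1) → z = x ∨ z = x + 1 := by decide
  have hne : ∀ x : ZMod 6, x + 1 ≠ x := by decide
  constructor
  · intro hs
    rw [subset_iff] at hs
    obtain ⟨h1, h2⟩ := hs
    have hf : h = f := by
      funext j
      exact h1 (j, f j) (mem_erase.2 ⟨by simp, (inl_mem _ _ _).2 rfl⟩)
    subst hf
    rcases hx x z (h2 (x + 1) (mem_erase.2 ⟨by
      intro h'
      exact hne x (Sum.inr_injective h'), (inr_mem _ _ _).2 (Or.inr rfl)⟩)) with h | h
    · left; rw [h]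
    · right; rw [h]
  · rintro (h | h)
    · rw [h]; exact erase_subset _ _
    · rw [h, subset_iff]
      refine ⟨fun a ha => ?_, fun y hy => ?_⟩
      · rw [mem_erase, inl_mem] at ha
        exact ha.2
      · rw [mem_erase, inr_mem] at hy
        rcases hy with ⟨h1, h2 | h2⟩
        · exact absurd (by rw [h2]) h1
        · exact Or.inl h2

theorem ridge3 (f h : Fin m → Bool) (x z : ZMod 6) :
    (facet f x).erase (Sum.inr (x + 1)) ⊆ facet h z ↔
      facet h z = facet f x ∨ facet h z = facet f (x - 1) := by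
  have hx : ∀ x z : ZMod 6, (x = z ∨ x = z + 1) → z = x ∨ z = x - 1 := by decide
  have hne : ∀ x : ZMod 6, x ≠ x + 1 := by decide
  constructor
  · intro hs
    rw [subset_iff] at hs
    obtain ⟨h1, h2⟩ := hs
    have hf : h = f := by
      funext j
      exact h1 (j, f j) (mem_erase.2 ⟨by simp, (inl_mem _ _ _).2 rfl⟩)
    subst hf
    rcases hx x z (h2 x (mem_erase.2 ⟨by
      intro h'
      exact hne x (Sum.inr_injective h'), (inr_mem _ _ _).2 (Or.inl rfl)⟩)) with h | h
    · left; rw [h]
    · right; rw [h]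
  · rintro (h | h)
    · rw [h]; exact erase_subset _ _
    · rw [h, subset_iff]
      refine ⟨fun a ha => ?_, fun y hy => ?_⟩
      · rw [mem_erase, inl_mem] at ha
        exact ha.2
      · rw [mem_erase, inr_mem] at hy
        rcases hy with ⟨h1, h2 | h2⟩
        · right; rw [h2]; ring
        · exact absurd (by rw [h2]) h1

theorem ne1 (f : Fin m → Bool) (x : ZMod 6) (i : Fin m) :
    facet (Function.update f i (!f i)) x ≠ facet f x := by
  intro h
  have := congrFun (facet_inj h).1 i
  rw [Function.update_self] at this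
  revert this
  cases f i <;> simp

theorem ne2 (f : Fin m → Bool) (x : ZMod 6) : facet f (x + 1) ≠ facet f x := by
  have hne : ∀ x : ZMod 6, x + 1 ≠ x := by decide
  intro h
  exact hne x (facet_inj h).2

theorem ne3 (f : Fin m → Bool) (x : ZMod 6) : facet f (x - 1) ≠ facet f x := by
  have hne : ∀ x : ZMod 6, x - 1 ≠ x := by decide
  intro h
  exact hne x (facet_inj h).2

/-- every vertex of a facet has an opposite facet -/
theorem ridge (f : Fin m → Bool) (x : ZMod 6) (v : Vx m) (hv : v ∈ facet f x) :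
    ∃ g y, facet g y ≠ facet f x ∧ ∀ h z, (facet f x).erase v ⊆ facet h z ↔
      facet h z = facet f x ∨ facet h z = facet g y := by
  rcases v with ⟨i, b⟩ | y
  · have hb := (inl_mem f x (i, b)).1 hv
    dsimp only at hb
    subst hb
    exact ⟨_, _, ne1 f x i, fun h z => ridge1 f h x z i⟩
  · rcases (inr_mem f x y).1 hv with h | h
    · subst h
      exact ⟨_, _, ne2 f y, fun h z => ridge2 f h y z⟩
    · subst h
      exact ⟨_, _, ne3 f x, fun h z => ridge3 f h x z⟩

theorem boundary_empty : boundary (m + 1) (cx m) = ∅ := by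
  rw [Set.eq_empty_iff_forall_notMem]
  rintro R ⟨hR, hodd⟩
  rcases (filter (fun F => R ⊆ F) (cx m)).eq_empty_or_nonempty with h0 | ⟨F, hF⟩
  · rw [h0] at hodd
    simp at hodd
  rw [mem_filter, mem_cx] at hF
  obtain ⟨⟨f, x, rfl⟩, hRF⟩ := hF
  obtain ⟨v, hv, hRv⟩ : ∃ v ∈ facet f x, R = (facet f x).erase v := by
    have h1 : (facet f x \ R).card = 1 := by
      rw [card_sdiff_of_subset hRF, card_facet, hR]
      omega
    obtain ⟨v, hv⟩ := card_eq_one.1 h1
    refine ⟨v, (mem_sdiff.1 (hv ▸ mem_singleton_self v : v ∈ facet f x \ R)).1, ?_⟩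
    rw [← sdiff_singleton_eq_erase, ← hv, Finset.sdiff_sdiff_eq_self hRF]
  obtain ⟨g, y, hne, hiff⟩ := ridge f x v hv
  have h2 : filter (fun F => R ⊆ F) (cx m) = {facet f x, facet g y} := by
    ext F
    rw [mem_filter, mem_cx, mem_insert, mem_singleton]
    constructor
    · rintro ⟨⟨h, z, rfl⟩, hs⟩
      rw [hRv] at hs
      exact (hiff h z).1 hs
    · rintro (h | h)
      · rw [h]; exact ⟨⟨f, x, rfl⟩, hRF⟩
      · rw [h]
        refine ⟨⟨g, y, rfl⟩, ?_⟩
        rw [hRv]
        exact (hiff g y).2 (Or.inr rfl)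
  rw [h2, card_pair hne.symm] at hodd
  revert hodd
  decide

theorem minimal (T : Finset (Finset (Vx m))) (hT : T ⊂ cx m) (hne : T.Nonempty) :
    boundary (m + 1) T ≠ ∅ := by
  intro hb
  have step : ∀ f x v, facet f x ∈ T → v ∈ facet f x → ∀ g y,
      (∀ h z, (facet f x).erase v ⊆ facet h z ↔
        facet h z = facet f x ∨ facet h z = facet g y) → facet g y ∈ T := by
    intro f x v hf hv g y hiff
    by_contra hg
    have h1 : filter (fun F => (facet f x).erase v ⊆ F) T = {facet f x} := by
      ext F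
      rw [mem_filter, mem_singleton]
      constructor
      · rintro ⟨hF, hs⟩
        obtain ⟨h, z, rfl⟩ := (mem_cx F).1 (hT.1 hF)
        rcases (hiff h z).1 hs with h1 | h1
        · exact h1
        · exact absurd (h1 ▸ hF) hg
      · intro h
        rw [h]
        exact ⟨hf, erase_subset _ _⟩
    have : (facet f x).erase v ∈ boundary (m + 1) T := by
      refine ⟨?_, ?_⟩
      · rw [card_erase_of_mem hv, card_facet]
        rfl
      · rw [h1, card_singleton]
        decide
    rw [hb] at this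
    exact this
  have step1 : ∀ f x i, facet f x ∈ T → facet (Function.update f i (!f i)) x ∈ T :=
    fun f x i h => step f x (Sum.inl (i, f i)) h ((inl_mem _ _ _).2 rfl) _ _
      fun h z => ridge1 f h x z i
  have step2 : ∀ f x, facet f x ∈ T → facet f (x + 1) ∈ T :=
    fun f x h => step f x (Sum.inr x) h ((inr_mem _ _ _).2 (Or.inl rfl)) _ _
      fun h z => ridge2 f h x z
  obtain ⟨F, hF⟩ := hne
  obtain ⟨f, x, rfl⟩ := (mem_cx F).1 (hT.1 hF)
  have h1 : ∀ n : ℕ, facet f (x + n) ∈ T := by
    intro n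
    induction n with
    | zero => simpa using hF
    | succ n ih =>
      have := step2 f _ ih
      rwa [add_assoc, ← Nat.cast_succ] at this
  have h2 : ∀ y, facet f y ∈ T := by
    intro y
    have := h1 (y - x).val
    rwa [ZMod.natCast_zmod_val, add_sub_cancel] at this
  have h3 : ∀ y, ∀ g : Fin m → Bool, ∀ s : Finset (Fin m),
      facet (fun i => if i ∈ s then g i else f i) y ∈ T := by
    intro y g s
    induction s using Finset.induction_on with
    | empty => simpa using h2 y
    | insert i s hi ih =>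
      by_cases hgi : g i = f i
      · convert ih using 2
        funext j
        by_cases hj : j = i
        · subst hj; simp [hi, hgi]
        · simp [hj]
      · have := step1 _ y i ih
        convert this using 2
        funext j
        by_cases hj : j = i
        · subst hj
          rw [Function.update_self]
          simp only [mem_insert, true_or, if_true, if_neg hi]
          revert hgi
          cases g j <;> cases f j <;> simp
        · rw [Function.update_of_ne hj]
          simp [hj]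
  apply hT.2
  intro F hF
  obtain ⟨g, y, rfl⟩ := (mem_cx F).1 hF
  simpa using h3 y g univ

theorem star_star (v : Vx m) : star (star v) = v := by
  have h6 : ∀ x : ZMod 6, x + 3 + 3 = x := by decide
  rcases v with ⟨i, b⟩ | x
  · simp [star]
  · simp [star, h6]

theorem symmetric : IsSymmetricCircuit (m + 1) (cx m) star := by
  refine ⟨⟨?_, ⟨facet (fun _ => true) 0, facet_mem _ _⟩, boundary_empty, minimal⟩, ?_, star_star,
    ?_, ?_⟩
  · intro F hF
    obtain ⟨f, x, rfl⟩ := (mem_cx F).1 hF
    exact card_facet f x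
  · rintro (⟨i, b⟩ | x)
    · exact ⟨facet (fun _ => b) 0, facet_mem _ _, (inl_mem _ _ _).2 rfl⟩
    · exact ⟨facet (fun _ => true) x, facet_mem _ _, (inr_mem _ _ _).2 (Or.inl rfl)⟩
  · intro F hF
    obtain ⟨f, x, rfl⟩ := (mem_cx F).1 hF
    have : (facet f x).image star = facet (fun i => !f i) (x + 3) := by
      apply eq_of_subset_of_card_le
      · intro v hv
        obtain ⟨w, hw, rfl⟩ := mem_image.1 hv
        rcases w with ⟨i, b⟩ | y
        · have := (inl_mem _ _ _).1 hw
          dsimp only at this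
          exact (inl_mem _ _ _).2 (by simp [this])
        · refine (inr_mem _ _ _).2 ?_
          rcases (inr_mem _ _ _).1 hw with h | h
          · left; rw [h]
          · right; rw [h]; ring
      · rw [card_image_of_injective, card_facet, card_facet]
        intro a b hab
        rw [← star_star a, hab, star_star]
    rw [this]
    exact facet_mem _ _
  · intro v F hF
    obtain ⟨f, x, rfl⟩ := (mem_cx F).1 hF
    rintro ⟨h1, h2⟩
    rcases v with ⟨i, b⟩ | y
    · have h1 := (inl_mem _ _ _).1 h1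
      have h2 := (inl_mem _ _ _).1 h2
      dsimp only at h1 h2
      rw [h1] at h2
      cases b <;> simp at h2
    · replace h1 := (inr_mem _ _ _).1 h1
      replace h2 := (inr_mem _ _ _).1 h2
      clear hF
      revert h1 h2
      revert x y
      decide

theorem adj_ll (a b : Fin m × Bool) : (graph (cx m)).Adj (Sum.inl a) (Sum.inl b) ↔ a.1 ≠ b.1 := by
  constructor
  · rintro ⟨hne, F, hF, ha, hb⟩ hab
    obtain ⟨f, x, rfl⟩ := (mem_cx F).1 hF
    apply hne
    have h1 := (inl_mem _ _ _).1 ha
    have h2 := (inl_mem _ _ _).1 hb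
    congr 1
    ext1
    · exact hab
    · rw [← h1, ← h2, hab]
  · intro h
    refine ⟨fun h' => h (congrArg Prod.fst (Sum.inl_injective h')),
      facet (fun i => if i = a.1 then a.2 else b.2) 0, facet_mem _ _, ?_, ?_⟩
    · exact (inl_mem _ _ _).2 (by simp)
    · exact (inl_mem _ _ _).2 (by simp [h.symm])

theorem adj_lr (a : Fin m × Bool) (x : ZMod 6) :
    (graph (cx m)).Adj (Sum.inl a) (Sum.inr x) :=
  ⟨by simp, facet (fun _ => a.2) x, facet_mem _ _, (inl_mem _ _ _).2 rfl,
    (inr_mem _ _ _).2 (Or.inl rfl)⟩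

theorem adj_rr (x y : ZMod 6) :
    (graph (cx m)).Adj (Sum.inr x) (Sum.inr y) ↔ (y = x + 1 ∨ x = y + 1) := by
  constructor
  · rintro ⟨hne, F, hF, ha, hb⟩
    obtain ⟨f, z, rfl⟩ := (mem_cx F).1 hF
    have hne' : x ≠ y := fun h => hne (by rw [h])
    have h1 := (inr_mem _ _ _).1 ha
    have h2 := (inr_mem _ _ _).1 hb
    rcases h1 with h1 | h1 <;> rcases h2 with h2 | h2
    · exact absurd (h1.trans h2.symm) hne'
    · left; rw [h1, h2]
    · right; rw [h1, h2]
    · exact absurd (h1.trans h2.symm) hne'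
  · have hne : ∀ x : ZMod 6, x ≠ x + 1 := by decide
    rintro (h | h)
    · subst h
      exact ⟨fun h' => hne x (Sum.inr_injective h'), facet (fun _ => true) x, facet_mem _ _,
        (inr_mem _ _ _).2 (Or.inl rfl), (inr_mem _ _ _).2 (Or.inr rfl)⟩
    · subst h
      exact ⟨fun h' => hne y (Sum.inr_injective h').symm, facet (fun _ => true) y, facet_mem _ _,
        (inr_mem _ _ _).2 (Or.inr rfl), (inr_mem _ _ _).2 (Or.inl rfl)⟩

theorem card_Vx : Fintype.card (Vx m) = 2 * m + 6 := by
  rw [Fintype.card_sum, Fintype.card_prod, Fintype.card_fin, Fintype.card_bool, ZMod.card]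
  ring

theorem connected (X : Finset (Vx m)) (hX : X.card < 2 * (m + 1)) :
    ((graph (cx m)).induce {v | v ∉ X}).Connected := by
  classical
  set G := (graph (cx m)).induce {v | v ∉ X} with hG
  -- it suffices to find a hub
  suffices h : ∃ c : {v // v ∈ {v : Vx m | v ∉ X}}, ∀ v, G.Reachable c v by
    obtain ⟨c, hc⟩ := h
    have : Nonempty {v // v ∈ {v : Vx m | v ∉ X}} := ⟨c⟩
    exact ⟨fun u v => (hc u).symm.trans (hc v)⟩
  have adj : ∀ (u v : Vx m) (hu : u ∉ X) (hv : v ∉ X), (graph (cx m)).Adj u v →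
      G.Reachable ⟨u, hu⟩ ⟨v, hv⟩ := by
    intro u v hu hv h
    exact SimpleGraph.Adj.reachable (by simpa [hG] using h)
  by_cases h1 : ∃ a, (Sum.inl a : Vx m) ∉ X
  · obtain ⟨a, ha⟩ := h1
    by_cases h2 : ∃ x, (Sum.inr x : Vx m) ∉ X
    · obtain ⟨x, hx⟩ := h2
      refine ⟨⟨Sum.inl a, ha⟩, ?_⟩
      rintro ⟨b | y, hv⟩
      · exact (adj _ _ ha hx (adj_lr a x)).trans (adj _ _ hx hv (adj_lr b x).symm)
      · exact adj _ _ ha hv (adj_lr a y)
    · push Not at h2
      -- all hexagon vertices are deleted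
      have key : ∀ i : Fin m, ∃ b : Fin m × Bool, b.1 ≠ i ∧ (Sum.inl b : Vx m) ∉ X := by
        intro i
        by_contra hcon
        push Not at hcon
        have hsub : (univ.filter fun v : Vx m => v ≠ Sum.inl (i, true) ∧ v ≠ Sum.inl (i, false))
            ⊆ X := by
          intro v hv
          rw [mem_filter] at hv
          rcases v with ⟨j, b⟩ | y
          · apply hcon
            intro hji
            dsimp only at hji
            subst hji
            cases b
            · exact hv.2.2 rfl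
            · exact hv.2.1 rfl
          · exact h2 y
        have hc := card_le_card hsub
        have : (univ.filter fun v : Vx m => v ≠ Sum.inl (i, true) ∧ v ≠ Sum.inl (i, false)) =
            univ \ {Sum.inl (i, true), Sum.inl (i, false)} := by
          ext v
          simp
        rw [this, card_sdiff_of_subset (subset_univ _), card_univ, card_Vx,
          card_pair (by simp)] at hc
        omega
      obtain ⟨b, hba, hb⟩ := key a.1
      refine ⟨⟨Sum.inl a, ha⟩, ?_⟩
      rintro ⟨c | y, hv⟩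
      · by_cases hca : c.1 = a.1
        · exact (adj _ _ ha hb ((adj_ll a b).2 hba.symm)).trans
            (adj _ _ hb hv ((adj_ll b c).2 (by rw [hca]; exact hba)))
        · exact adj _ _ ha hv ((adj_ll a c).2 (Ne.symm hca))
      · exact absurd (h2 y) hv
  · push Not at h1
    -- all vertices of the cross-polytope are deleted
    have h3 : ∀ x y : ZMod 6, (Sum.inr x : Vx m) ∈ X → (Sum.inr y : Vx m) ∈ X → x = y := by
      intro x y hx hy
      by_contra hxy
      have hsub : ((univ : Finset (Fin m × Bool)).disjSum {x, y}) ⊆ X := by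
        intro v hv
        rcases v with a | z
        · exact h1 a
        · rw [inr_mem_disjSum, mem_insert, mem_singleton] at hv
          rcases hv with rfl | rfl
          · exact hx
          · exact hy
      have hc := card_le_card hsub
      rw [card_disjSum, card_univ, Fintype.card_prod, Fintype.card_fin, Fintype.card_bool,
        card_pair hxy] at hc
      omega
    obtain ⟨w, hw⟩ : ∃ w : ZMod 6, ∀ x, x ≠ w → (Sum.inr x : Vx m) ∉ X := by
      by_cases h : ∃ w : ZMod 6, (Sum.inr w : Vx m) ∈ X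
      · obtain ⟨w, hw⟩ := h
        exact ⟨w, fun x hx hxX => hx (h3 x w hxX hw)⟩
      · push Not at h
        exact ⟨0, fun x _ => h x⟩
    have hne : ∀ w : ZMod 6, w + 1 ≠ w ∧ w + 2 ≠ w ∧ w + 3 ≠ w ∧ w + 4 ≠ w ∧ w + 5 ≠ w := by
      decide
    obtain ⟨e1, e2, e3, e4, e5⟩ := hne w
    have ex : ∀ w x : ZMod 6, x = w ∨ x = w + 1 ∨ x = w + 2 ∨ x = w + 3 ∨ x = w + 4 ∨
      x = w + 5 := by decide
    have r32 := adj _ _ (hw _ e3) (hw _ e2) ((adj_rr (m := m) (w + 3) (w + 2)).2
      (Or.inr (by ring)))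
    have r34 := adj _ _ (hw _ e3) (hw _ e4) ((adj_rr (m := m) (w + 3) (w + 4)).2
      (Or.inl (by ring)))
    have r21 := adj _ _ (hw _ e2) (hw _ e1) ((adj_rr (m := m) (w + 2) (w + 1)).2
      (Or.inr (by ring)))
    have r45 := adj _ _ (hw _ e4) (hw _ e5) ((adj_rr (m := m) (w + 4) (w + 5)).2
      (Or.inl (by ring)))
    refine ⟨⟨Sum.inr (w + 3), hw _ e3⟩, ?_⟩
    rintro ⟨a | x, hv⟩
    · exact absurd (h1 a) hv
    · rcases ex w x with h | h | h | h | h | h
      · subst h
        exact (r32.trans r21).trans (adj _ _ (hw _ e1) hv ((adj_rr (m := m) (x + 1) x).2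
          (Or.inr rfl)))
      · subst h; exact r32.trans r21
      · subst h; exact r32
      · subst h; exact SimpleGraph.Reachable.refl _
      · subst h; exact r34
      · subst h; exact r34.trans r45

theorem kconnected : IsKConnected (2 * (m + 1)) (graph (cx m)) :=
  ⟨by rw [card_Vx]; omega, connected⟩

/-- the graph without the opposite edges `{5, 0}` and `{2, 3}` of the hexagon -/
def del (m : ℕ) : SimpleGraph (Vx m) :=
  (graph (cx m)).deleteEdges {s(Sum.inr 5, Sum.inr 0), s(star (Sum.inr 5), star (Sum.inr 0))}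

theorem del_adj {u v : Vx m} (h : (del m).Adj u v) : (graph (cx m)).Adj u v ∧
    s(u, v) ≠ s(Sum.inr 5, Sum.inr 0) ∧ s(u, v) ≠ s(Sum.inr 2, Sum.inr 3) := by
  unfold del at h
  rw [SimpleGraph.deleteEdges_adj] at h
  refine ⟨h.1, fun h' => h.2 (Or.inl h'), fun h' => h.2 (Or.inr ?_)⟩
  rw [Set.mem_singleton_iff, h']
  have e1 : (5 : ZMod 6) + 3 = 2 := by decide
  have e2 : (0 : ZMod 6) + 3 = 3 := by decide
  simp [star, e1, e2]

theorem del_rr {x y : ZMod 6} (h : (del m).Adj (Sum.inr x) (Sum.inr y)) :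
    (y = x + 1 ∨ x = y + 1) ∧ ¬ (x = 5 ∧ y = 0) ∧ ¬ (x = 0 ∧ y = 5) ∧ ¬ (x = 2 ∧ y = 3) ∧
      ¬ (x = 3 ∧ y = 2) := by
  obtain ⟨h1, h2, h3⟩ := del_adj h
  refine ⟨(adj_rr _ _).1 h1, ?_, ?_, ?_, ?_⟩
  · rintro ⟨rfl, rfl⟩; exact h2 rfl
  · rintro ⟨rfl, rfl⟩; exact h2 Sym2.eq_swap
  · rintro ⟨rfl, rfl⟩; exact h3 rfl
  · rintro ⟨rfl, rfl⟩; exact h3 Sym2.eq_swap

theorem del_not_rigid (hm : 2 ≤ m) (p : Vx m → Eu (m + 2)) (g : Fin m → Eu (m + 2)) (c₀ : Fin m × Bool)
    (hg : ∀ a, p (Sum.inl a) - p (Sum.inl c₀) ∈ Submodule.span ℝ (Set.range g)) :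
    ¬ InfRigid (del m) p := by
  obtain ⟨u, w, huw, horth⟩ := exists_orth g
  let C : Vx m → Prop := fun v => v.isLeft
  let P : Vx m → Prop := fun v => v = Sum.inr 0 ∨ v = Sum.inr 1 ∨ v = Sum.inr 2
  let Q : Vx m → Prop := fun v => v = Sum.inr 3 ∨ v = Sum.inr 4 ∨ v = Sum.inr 5
  have hinj : ∀ x y : ZMod 6, (Sum.inr x : Vx m) = Sum.inr y ↔ x = y := fun x y => by simp
  refine not_rigid C P Q ?_ ?_ ?_ ?_ ?_ (Sum.inl c₀) (Sum.inr 0) (Sum.inr 1) (Sum.inr 3) (Sum.inr 4)
    (by simp [C]) (by simp [P]) (by simp [P]) (by simp [Q]) (by simp [Q]) ?_ ?_ ?_ u w huw ?_ ?_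
  · rintro (a | x)
    · left; simp [C]
    · right
      simp only [P, Q, hinj]
      revert x
      decide
  · rintro (a | x) h
    · simp [P]
    · simp [C] at h
  · rintro (a | x) h
    · simp [P] at h
    · simp only [P, Q, hinj] at h ⊢
      revert x
      decide
  · rintro (a | x) h
    · simp [Q]
    · simp [C] at h
  · rintro (a | x) (b | y) h1 h2 hadj
    · simp [P] at h1
    · simp [P] at h1
    · simp [Q] at h2
    · have h3 := del_rr hadj
      simp only [P, Q, hinj] at h1 h2
      clear hadj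
      revert h1 h2 h3
      revert x y
      decide
  · rintro (a | x) h
    · left; simp [C]
    · right
      have h3 := del_rr h
      rw [hinj]
      clear h
      revert h3
      revert x
      decide
  · rintro (a | x) h
    · left; simp [C]
    · right
      have h3 := del_rr h
      rw [hinj]
      clear h
      revert h3
      revert x
      decide
  · rw [card_Vx]; omega
  · rintro (a | x) h
    · exact (horth _ (hg a)).1
    · simp [C] at h
  · rintro (a | x) h
    · exact (horth _ (hg a)).2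
    · simp [C] at h

theorem not_gamma (hm : 2 ≤ m) (τ : Eu (m + 2) →ₗ[ℝ] Eu (m + 2))
    (hτ : (∀ x, τ x = -x) ∨ ∃ n : Eu (m + 2), ‖n‖ = 1 ∧ ∀ x, τ x = x - (2 * ⟪n, x⟫_ℝ) • n) :
    ¬ GammaRigid (del m) star τ := by
  rintro ⟨p, hp, hr⟩
  have h0 : 0 < m := by omega
  have htrue : ∀ i : Fin m, p (Sum.inl (i, true)) = τ (p (Sum.inl (i, false))) := by
    intro i
    rw [← hp]
    rfl
  rcases hτ with hτ | ⟨n, -, hτ⟩
  · refine del_not_rigid hm p (fun i => p (Sum.inl (i, false))) (⟨0, h0⟩, false) ?_ hr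
    rintro ⟨i, b⟩
    have hmem : ∀ i : Fin m, p (Sum.inl (i, false)) ∈
        Submodule.span ℝ (Set.range fun i : Fin m => p (Sum.inl (i, false))) :=
      fun i => Submodule.subset_span ⟨i, rfl⟩
    refine Submodule.sub_mem _ ?_ (hmem _)
    cases b
    · exact hmem i
    · rw [htrue, hτ]
      exact Submodule.neg_mem _ (hmem i)
  · refine del_not_rigid hm p (fun i => if i = ⟨0, h0⟩ then n else
      p (Sum.inl (i, false)) - p (Sum.inl (⟨0, h0⟩, false))) (⟨0, h0⟩, false) ?_ hr
    set K := Submodule.span ℝ (Set.range fun i : Fin m => if i = ⟨0, h0⟩ then n else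
      p (Sum.inl (i, false)) - p (Sum.inl (⟨0, h0⟩, false))) with hK
    have hn : n ∈ K := Submodule.subset_span ⟨⟨0, h0⟩, by simp⟩
    have hf : ∀ i : Fin m, p (Sum.inl (i, false)) - p (Sum.inl (⟨0, h0⟩, false)) ∈ K := by
      intro i
      by_cases hi : i = ⟨0, h0⟩
      · rw [hi, sub_self]; exact Submodule.zero_mem _
      · exact Submodule.subset_span ⟨i, by simp [hi]⟩
    rintro ⟨i, b⟩
    cases b
    · exact hf i
    · rw [htrue, hτ, sub_right_comm]
      exact Submodule.sub_mem _ (hf i) (Submodule.smul_mem _ _ hn)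

end complex

/-- For every `k ≥ 3` there is a `ℤ₂`-symmetric simplicial `k`-circuit `(S, *)` which is not
isomorphic to `B_k` and whose graph is `2k`-connected, with an edge `e = uv` such that
`(G(S) - e - e*, *)` is not `Γ`-rigid in `ℝ^(k+1)`, neither for the point inversion nor for any
reflection in a hyperplane. In particular Q1 is false, also with '`(k+1)`-connected' replaced by
'`2k`-connected'. -/
theorem result :
    (∀ k : ℕ, 3 ≤ k → ∃ (V : Type) (_ : Fintype V) (_ : DecidableEq V) (S : Finset (Finset V))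
      (star : V → V) (u v : V),
      IsSymmetricCircuit k S star ∧ IsKConnected (2 * k) (graph S) ∧
      (¬ ∃ φ : V ≃ Fin (k + 1) × Bool, ∀ F : Finset V,
        F ∈ S ↔ F.map φ.toEmbedding ∈ crossPolytope k) ∧
      (graph S).Adj u v ∧
      ∀ τ : Eu (k + 1) →ₗ[ℝ] Eu (k + 1),
        ((∀ x, τ x = -x) ∨ ∃ n : Eu (k + 1), ‖n‖ = 1 ∧ ∀ x, τ x = x - (2 * ⟪n, x⟫_ℝ) • n) →
        ¬ GammaRigid ((graph S).deleteEdges {s(u, v), s(star u, star v)}) star τ) ∧
    ¬ Statement (fun k => k + 1) ∧ ¬ Statement (fun k => 2 * k) := by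
  have main : ∀ k : ℕ, 3 ≤ k → ∃ (V : Type) (_ : Fintype V) (_ : DecidableEq V)
      (S : Finset (Finset V)) (star : V → V) (u v : V),
      IsSymmetricCircuit k S star ∧ IsKConnected (2 * k) (graph S) ∧
      (¬ ∃ φ : V ≃ Fin (k + 1) × Bool, ∀ F : Finset V,
        F ∈ S ↔ F.map φ.toEmbedding ∈ crossPolytope k) ∧
      (graph S).Adj u v ∧
      ∀ τ : Eu (k + 1) →ₗ[ℝ] Eu (k + 1),
        ((∀ x, τ x = -x) ∨ ∃ n : Eu (k + 1), ‖n‖ = 1 ∧ ∀ x, τ x = x - (2 * ⟪n, x⟫_ℝ) • n) →
        ¬ GammaRigid ((graph S).deleteEdges {s(u, v), s(star u, star v)}) star τ := by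
    intro k hk
    obtain ⟨m, rfl⟩ : ∃ m, k = m + 1 := ⟨k - 1, by omega⟩
    refine ⟨Vx m, inferInstance, inferInstance, cx m, star, Sum.inr 5, Sum.inr 0, symmetric,
      kconnected, ?_, ?_, ?_⟩
    · rintro ⟨φ, -⟩
      have := Fintype.card_congr φ
      rw [card_Vx, Fintype.card_prod, Fintype.card_fin, Fintype.card_bool] at this
      omega
    · rw [adj_rr]
      left
      decide
    · intro τ hτ
      exact not_gamma (by omega) τ hτ
  refine ⟨main, ?_, ?_⟩
  all_goals
    intro h
    obtain ⟨V, i1, i2, S, st, u, v, h1, h2, h3, h4, h5⟩ := main 3 le_rfl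
    let τ : Eu (3 + 1) →ₗ[ℝ] Eu (3 + 1) := -LinearMap.id
    have hτ : ∀ x, τ x = -x := fun x => rfl
    refine h5 τ (Or.inl hτ) (h 3 le_rfl V S st h1 h3 ⟨?_, fun X hX => h2.2 X ?_⟩ τ ⟨?_, ?_, ?_⟩
      u v h4)
    · have := h2.1
      dsimp only
      omega
    · dsimp only at hX
      omega
    · intro x y
      rw [hτ, hτ, inner_neg_neg]
    · intro x
      rw [hτ, hτ, neg_neg]
    · intro h'
      have h6 := congrArg (fun f => f (EuclideanSpace.single 0 (1 : ℝ)) 0) h'
      simp [τ] at h6
      norm_num at h6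

end Pool.Agent.Results.MP_4fec65_co.HexagonJoin
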